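import Mathlib
import Pool.Agent.W42.RG.Defs2

/-!
# LY-IRB: the step from `K ⊔ ψ` to `K`, if `ψ` is central modulo `K`
-/

set_option autoImplicit false
set_option maxHeartbeats 400000

namespace Pool.Agent.W975.LY

open Finset Filter Topology MeasureTheory Pool.Agent.W42.RN Pool.Agent.W42.RL
open Pool.Agent.W42.RG

theorem mixOn_mono {X : Type} [MeasurableSpace X] {μ : Measure X} {T : X → X}
    {Q Q' : Set X → Prop} (h : ∀ B, Q' B → Q B) (k : ℕ) (hQ : MixOn μ T Q k) :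
    MixOn μ T Q' k := fun A hA ε hε => hQ A (fun i => ⟨(hA i).1, h _ (hA i).2⟩) ε hε

section

variable {𝔤 : Type} [LieRing 𝔤] [LieAlgebra ℝ 𝔤]

/-- the elements `V + ψ ζ`, `V ∈ K`, if `ψ` is central modulo `K` -/
def idl (K : LieIdeal ℝ 𝔤) (ψ : ℂ →ₗ[ℝ] 𝔤) (h : ∀ (Y : 𝔤) (ζ : ℂ), ⁅Y, ψ ζ⁆ ∈ K) :
    LieIdeal ℝ 𝔤 where
  carrier := {Y | ∃ V ∈ K, ∃ ζ : ℂ, Y = ψ ζ + V}
  add_mem' := by
    rintro _ _ ⟨V, hV, ζ, rfl⟩ ⟨V', hV', ζ', rfl⟩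
    exact ⟨V + V', add_mem hV hV', ζ + ζ', by rw [map_add]; abel⟩
  zero_mem' := ⟨0, zero_mem K, 0, by simp⟩
  smul_mem' := by
    rintro c _ ⟨V, hV, ζ, rfl⟩
    exact ⟨c • V, K.smul_mem c hV, c • ζ, by rw [map_smul, smul_add]⟩
  lie_mem := by
    rintro x _ ⟨V, hV, ζ, rfl⟩
    exact ⟨⁅x, ψ ζ⁆ + ⁅x, V⁆, add_mem (h x ζ) (K.lie_mem hV), 0, by
      rw [lie_add, map_zero, zero_add]⟩

theorem le_idl (K : LieIdeal ℝ 𝔤) (ψ : ℂ →ₗ[ℝ] 𝔤) (h : ∀ (Y : 𝔤) (ζ : ℂ), ⁅Y, ψ ζ⁆ ∈ K) :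
    (K ⊔ LieSubmodule.lieSpan ℝ 𝔤 (Set.range ψ) : LieIdeal ℝ 𝔤) ≤ idl K ψ h := by
  refine sup_le ?_ ?_
  · intro V hV
    exact ⟨V, hV, 0, by simp⟩
  · rw [LieSubmodule.lieSpan_le]
    rintro _ ⟨ζ, rfl⟩
    exact ⟨0, zero_mem K, ζ, by simp⟩

end

theorem t_IRB (h1 : S_RBon) (h2 : S_RFL) (h3 : S_RSHR) : S_IRB := by
  intro X _ 𝔤 _ _ _ _ _ _ _ μ _ E hE T hT A hA K hK ω hω hord φ d hd hφ hcen k hmix
  have hψ : ∀ ζ, nw A ω ((nw A ω)^[d] φ) ζ ∈ K := by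
    intro ζ
    have := hφ ζ
    rw [Function.iterate_succ_apply'] at this
    exact this
  obtain ⟨hR, hTm, hTs, hadd⟩ := h2 X 𝔤 μ E hE T hT A hA K hK ω ((nw A ω)^[d] φ) hψ
  refine h1 X (mK μ E (K : Set 𝔤)) μ T hT (mK_le μ E _) hTm hTs
    (fun ζ => E ((nw A ω)^[d] φ ζ)) ω hω hord hR (hadd hcen)
    (fun ε ζ => E (ε • φ (ω ^ d * ζ))) (fun ε ζ => hE.mp _)
    (fun ε ζ => conj_meas hE K _) (rt d) (rate_rt hd)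
    (h3 X 𝔤 μ E hE T hT A hA K hK ω hω φ d hd hφ) k ?_
  refine mixOn_mono ?_ k hmix
  rintro B ⟨hB, hinv⟩
  refine ⟨hB.1, ?_⟩
  intro Y hY
  obtain ⟨V, hV, ζ, rfl⟩ := le_idl K ((nw A ω)^[d] φ) hcen hY
  exact (quot hE K ((nw A ω)^[d] φ ζ) V hV B hB).trans (hinv ζ)

end Pool.Agent.W975.LY
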